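import Pool.Agent.SCS.TTab
import Pool.Agent.SCS.TSize

/-!
# AuxPDA, module Univ: a universal polynomial-time function (helper36)

Flat programs for the structured stack programs `Prog`: a list of instructions
`(op, k, a, b, c)`; `op = 0`: go to `a`; `1`: push `false` on stack `k`, go to `a`; `2`: push
`true`; `3`: pop; `≥ 4`: go to `a`, `b`, `c` if the top of stack `k` is `true`, `false`, missing.
-/

set_option autoImplicit false

namespace Pool.Agent.AuxPDA

open Pool.Agent.PolyTime Pool.Agent.NegLim Pool.Agent.SCS

/-- instructions -/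
abbrev Ins := ℕ × ℕ × ℕ × ℕ × ℕ

/-- the flat program -/
def flat : Prog → (o next : ℕ) → List Ins
  | .skip, _, next => [(0, 0, next, 0, 0)]
  | .push k b, _, next => [(if b = true then 2 else 1, k, next, 0, 0)]
  | .pop k, _, next => [(3, k, next, 0, 0)]
  | .seq p q, o, next => flat p o (o + p.size) ++ flat q (o + p.size) next
  | .ite k p q r, o, next =>
      (4, k, o + 1, o + 1 + p.size, o + 1 + p.size + q.size) ::
        (flat p (o + 1) next ++ (flat q (o + 1 + p.size) next ++
          flat r (o + 1 + p.size + q.size) next))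
  | .loop k p, o, next => (4, k, o + 1, o + 1, next) :: flat p (o + 1) o

theorem flat_length (p : Prog) : ∀ o next, (flat p o next).length = p.size := by
  induction p with
  | skip => intro o next; rfl
  | push k b => intro o next; rfl
  | pop k => intro o next; rfl
  | seq p q ih1 ih2 =>
    intro o next
    rw [flat, List.length_append, ih1, ih2]
    rfl
  | ite k p q r ih1 ih2 ih3 =>
    intro o next
    rw [flat, List.length_cons, List.length_append, List.length_append, ih1, ih2, ih3]
    simp only [Prog.size]
    omega
  | loop k p ih =>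
    intro o next
    rw [flat, List.length_cons, ih]
    simp only [Prog.size]
    omega

/-- the effect of an instruction -/
def eff (i : Ins) (S : List (List Bool)) : ℕ × List (List Bool) :=
  if i.1 = 0 then (i.2.2.1, S)
  else if i.1 = 1 then (i.2.2.1, S.set i.2.1 (false :: S.getD i.2.1 []))
  else if i.1 = 2 then (i.2.2.1, S.set i.2.1 (true :: S.getD i.2.1 []))
  else if i.1 = 3 then (i.2.2.1, S.set i.2.1 (S.getD i.2.1 []).tail)
  else if (S.getD i.2.1 []).isEmpty = true then (i.2.2.2.2, S)
  else if (S.getD i.2.1 []).headD false = true then (i.2.2.1, S)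
  else (i.2.2.2.1, S)

/-- one step of the flat program -/
def ustep (C : List Ins) (s : ℕ × List (List Bool)) : ℕ × List (List Bool) :=
  eff (C.getD s.1 (0, 0, s.1, 0, 0)) s.2

/-- the first `R + 1` stacks -/
def stk (R : ℕ) (s : St) : List (List Bool) := (List.range (R + 1)).map s

theorem stk_getD {R : ℕ} (s : St) {k : ℕ} (hk : k < R + 1) : (stk R s).getD k [] = s k := by
  unfold stk
  rw [List.getD_eq_getElem _ _ (by simpa using hk)]
  simp

theorem stk_set {R : ℕ} (s : St) {k : ℕ} (v : List Bool) :
    (stk R s).set k v = stk R (Function.update s k v) := by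
  unfold stk
  refine List.ext_getElem (by simp) ?_
  intro i h1 h2
  rw [List.getElem_set]
  simp only [List.getElem_map, List.getElem_range]
  split_ifs with h
  · subst h
    rw [Function.update_self]
  · rw [Function.update_of_ne (fun h' => h h'.symm)]

theorem getD_mid (pre post : List Ins) (x : Ins) (o : ℕ) (ho : pre.length = o) (d : Ins) :
    (pre ++ x :: post).getD o d = x := by
  subst ho
  simp [List.getD_eq_getElem?_getD]

theorem sim {R : ℕ} {p : Prog} {s s' : St} {t : ℕ} (h : Run p s s' t) :
    ∀ (o next : ℕ) (C pre post : List Ins), p.regsLt (R + 1) → pre.length = o →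
      C = pre ++ (flat p o next ++ post) →
      (ustep C)^[t] (o, stk R s) = (next, stk R s') := by
  induction h with
  | skip s =>
    intro o next C pre post _ ho hC
    rw [Function.iterate_one]
    unfold ustep
    rw [hC, flat, List.singleton_append, getD_mid pre post _ o ho]
    rfl
  | push k b s =>
    intro o next C pre post hR ho hC
    rw [Function.iterate_one]
    unfold ustep
    rw [hC, flat, List.singleton_append, getD_mid pre post _ o ho]
    simp only [Prog.regsLt] at hR
    cases b <;> simp [-List.getD_eq_getElem?_getD, eff, stk_getD s hR, stk_set]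
  | pop k s =>
    intro o next C pre post hR ho hC
    rw [Function.iterate_one]
    unfold ustep
    rw [hC, flat, List.singleton_append, getD_mid pre post _ o ho]
    simp only [Prog.regsLt] at hR
    simp [-List.getD_eq_getElem?_getD, eff, stk_getD s hR, stk_set]
  | @seq p q s s' s'' t t' _ _ ih1 ih2 =>
    intro o next C pre post hR ho hC
    rw [flat] at hC
    rw [add_comm, Function.iterate_add_apply,
      ih1 o (o + p.size) C pre (flat q (o + p.size) next ++ post) hR.1 ho (by
        rw [hC, List.append_assoc]),
      ih2 (o + p.size) next C (pre ++ flat p o (o + p.size)) post hR.2 (by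
        rw [List.length_append, flat_length, ho]) (by rw [hC]; simp only [List.append_assoc])]
  | @ite_true k p q r s s' t hk _ ih =>
    intro o next C pre post hR ho hC
    rw [Function.iterate_succ_apply]
    have h1 : ustep C (o, stk R s) = (o + 1, stk R s) := by
      unfold ustep
      rw [hC, flat, List.cons_append, getD_mid pre _ _ o ho]
      obtain ⟨l, hl⟩ : ∃ l, s k = true :: l := by
        cases hs : s k with
        | nil => rw [hs] at hk; exact absurd hk (by simp)
        | cons b l =>
          rw [hs] at hk
          simp only [List.head?_cons, Option.some.injEq] at hk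
          exact ⟨l, by rw [hk]⟩
      simp [-List.getD_eq_getElem?_getD, eff, stk_getD s hR.1, hl]
    rw [h1]
    refine ih (o + 1) next C (pre ++ [(4, k, o + 1, o + 1 + p.size, o + 1 + p.size + q.size)])
      (flat q (o + 1 + p.size) next ++ (flat r (o + 1 + p.size + q.size) next ++ post)) hR.2.1
      (by rw [List.length_append, ho]; rfl) ?_
    rw [hC, flat]
    simp only [List.append_assoc, List.cons_append, List.nil_append]
  | @ite_false k p q r s s' t hk _ ih =>
    intro o next C pre post hR ho hC
    rw [Function.iterate_succ_apply]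
    have h1 : ustep C (o, stk R s) = (o + 1 + p.size, stk R s) := by
      unfold ustep
      rw [hC, flat, List.cons_append, getD_mid pre _ _ o ho]
      obtain ⟨l, hl⟩ : ∃ l, s k = false :: l := by
        cases hs : s k with
        | nil => rw [hs] at hk; exact absurd hk (by simp)
        | cons b l =>
          rw [hs] at hk
          simp only [List.head?_cons, Option.some.injEq] at hk
          exact ⟨l, by rw [hk]⟩
      simp [-List.getD_eq_getElem?_getD, eff, stk_getD s hR.1, hl]
    rw [h1]
    refine ih (o + 1 + p.size) next C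
      (pre ++ ([(4, k, o + 1, o + 1 + p.size, o + 1 + p.size + q.size)] ++ flat p (o + 1) next))
      (flat r (o + 1 + p.size + q.size) next ++ post) hR.2.2.1
      (by
        rw [List.length_append, List.length_append, flat_length, ho, List.length_singleton]
        omega) ?_
    rw [hC, flat]
    simp only [List.append_assoc, List.cons_append, List.nil_append]
  | @ite_none k p q r s s' t hk _ ih =>
    intro o next C pre post hR ho hC
    rw [Function.iterate_succ_apply]
    have h1 : ustep C (o, stk R s) = (o + 1 + p.size + q.size, stk R s) := by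
      unfold ustep
      rw [hC, flat, List.cons_append, getD_mid pre _ _ o ho]
      have hl : s k = [] := by
        cases hs : s k with
        | nil => rfl
        | cons b l => rw [hs] at hk; exact absurd hk (by simp)
      simp [-List.getD_eq_getElem?_getD, eff, stk_getD s hR.1, hl]
    rw [h1]
    refine ih (o + 1 + p.size + q.size) next C
      (pre ++ ([(4, k, o + 1, o + 1 + p.size, o + 1 + p.size + q.size)] ++
        (flat p (o + 1) next ++ flat q (o + 1 + p.size) next))) post hR.2.2.2
      (by
        rw [List.length_append, List.length_append, List.length_append, flat_length, flat_length,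
          ho, List.length_singleton]
        omega) ?_
    rw [hC, flat]
    simp only [List.append_assoc, List.cons_append, List.nil_append]
  | @loop_nil k p s hk =>
    intro o next C pre post hR ho hC
    rw [Function.iterate_one]
    unfold ustep
    rw [hC, flat, List.cons_append, getD_mid pre _ _ o ho]
    simp [-List.getD_eq_getElem?_getD, eff, stk_getD s hR.1, hk]
  | @loop_cons k p s s' s'' t t' hk _ _ ih1 ih2 =>
    intro o next C pre post hR ho hC
    rw [Function.iterate_succ_apply]
    have h1 : ustep C (o, stk R s) = (o + 1, stk R s) := by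
      unfold ustep
      rw [hC, flat, List.cons_append, getD_mid pre _ _ o ho]
      obtain ⟨b, l, hbl⟩ := List.exists_cons_of_ne_nil hk
      cases b <;> simp [-List.getD_eq_getElem?_getD, eff, stk_getD s hR.1, hbl]
    rw [h1, add_comm, Function.iterate_add_apply]
    rw [ih1 (o + 1) o C (pre ++ [(4, k, o + 1, o + 1, next)]) post hR.2
      (by rw [List.length_append, ho]; rfl) (by
        rw [hC, flat]
        simp only [List.append_assoc, List.cons_append, List.nil_append])]
    exact ih2 o next C pre post hR ho hC

/-! ### The interpreter is polynomial-time -/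

theorem set_eq {β : Type} (l : List β) (i : ℕ) (x : β) :
    l.set i x = l.take i ++ (match l.drop i with
      | [] => []
      | _ :: t => x :: t) := by
  induction l generalizing i with
  | nil => simp
  | cons b l ih =>
    cases i with
    | zero => simp
    | succ i =>
      rw [List.set_cons_succ, ih i]
      simp

theorem polyF_setN {α β : Type} [Enc α] [Enc β] {n : α → ℕ} {l : α → List β} {f : α → β}
    (hn : PolyF n) (hl : PolyF l) (hf : PolyF f) : PolyF (fun a => (l a).set (n a) (f a)) := by
  have h1 := PolyF.listCase (l := fun a => (l a).drop (n a)) (f := fun _ : α => ([] : List β))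
    (g := fun z : α × β × List β => f z.1 :: z.2.2) (PolyF.drop hn hl) (PolyF.const [])
    (PolyF.cons (PolyF.comp hf (PolyF.fst PolyF.id)) (PolyF.snd (PolyF.snd PolyF.id)))
  refine (PolyF.append (PolyF.take hn hl) h1).congr fun a => ?_
  rw [set_eq]
  cases (l a).drop (n a) <;> rfl

theorem polyF_eff : PolyF (fun p : Ins × List (List Bool) => eff p.1 p.2) := by
  have hop : PolyF (fun p : Ins × List (List Bool) => p.1.1) := PolyF.id.fst.fst
  have hk : PolyF (fun p : Ins × List (List Bool) => p.1.2.1) := PolyF.id.fst.snd.fst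
  have ha : PolyF (fun p : Ins × List (List Bool) => p.1.2.2.1) := PolyF.id.fst.snd.snd.fst
  have hb : PolyF (fun p : Ins × List (List Bool) => p.1.2.2.2.1) :=
    PolyF.id.fst.snd.snd.snd.fst
  have hc : PolyF (fun p : Ins × List (List Bool) => p.1.2.2.2.2) :=
    PolyF.id.fst.snd.snd.snd.snd
  have hS : PolyF (fun p : Ins × List (List Bool) => p.2) := PolyF.id.snd
  have htop : PolyF (fun p : Ins × List (List Bool) => p.2.getD p.1.2.1 []) :=
    PolyF.getD hk hS (PolyF.const [])
  have h := PolyF.ite (PolyF.eqNat hop (PolyF.const 0)) (ha.pair hS)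
    (PolyF.ite (PolyF.eqNat hop (PolyF.const 1))
      (ha.pair (polyF_setN hk hS (PolyF.cons (PolyF.const false) htop)))
    (PolyF.ite (PolyF.eqNat hop (PolyF.const 2))
      (ha.pair (polyF_setN hk hS (PolyF.cons (PolyF.const true) htop)))
    (PolyF.ite (PolyF.eqNat hop (PolyF.const 3))
      (ha.pair (polyF_setN hk hS htop.tail))
    (PolyF.ite htop.isEmpty (hc.pair hS)
    (PolyF.ite (htop.headD false) (ha.pair hS) (hb.pair hS))))))
  refine h.congr fun p => ?_
  simp only [eff, decide_eq_true_eq]

theorem polyF_ustep : PolyF (fun p : List Ins × (ℕ × List (List Bool)) => ustep p.1 p.2) := by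
  have hpc : PolyF (fun p : List Ins × (ℕ × List (List Bool)) => p.2.1) := PolyF.id.snd.fst
  have hi : PolyF (fun p : List Ins × (ℕ × List (List Bool)) =>
      p.1.getD p.2.1 (0, 0, p.2.1, 0, 0)) :=
    PolyF.getD hpc PolyF.id.fst ((PolyF.const 0).pair ((PolyF.const 0).pair (hpc.pair
      ((PolyF.const 0).pair (PolyF.const 0)))))
  exact PolyF.comp polyF_eff (hi.pair PolyF.id.snd.snd)

theorem sz_lcons (a : List Bool) (l : List (List Bool)) : sz (a :: l) = 2 * sz a + 1 + sz l :=
  length_pairWord _ _

theorem sz_lset (l : List (List Bool)) (i : ℕ) (x : List Bool)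
    (h : x.length ≤ (l.getD i []).length + 1) : sz (l.set i x) ≤ sz l + 2 := by
  induction l generalizing i with
  | nil => simp
  | cons a l ih =>
    cases i with
    | zero =>
      rw [List.set_cons_zero, sz_lcons, sz_lcons, sz_word, sz_word]
      have : x.length ≤ a.length + 1 := h
      omega
    | succ i =>
      rw [List.set_cons_succ, sz_lcons, sz_lcons]
      have := ih i h
      omega

theorem sz_ins (i : Ins) : sz i = 2 * i.1 + 1 + (2 * i.2.1 + 1 + (2 * i.2.2.1 + 1 +
    (2 * i.2.2.2.1 + 1 + i.2.2.2.2))) := by
  obtain ⟨op, k, a, b, c⟩ := i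
  rw [sz_pair, sz_pair, sz_pair, sz_pair, sz_nat, sz_nat, sz_nat, sz_nat, sz_nat]

theorem eff_bd (i : Ins) (S : List (List Bool)) :
    ((eff i S).1 ≤ sz i ∧ ((eff i S).1 = i.2.2.1 ∨ i.1 ≠ 0)) ∧ sz (eff i S).2 ≤ sz S + 2 := by
  have h1 := sz_ins i
  unfold eff
  split_ifs with h2 h3 h4 h5 h6 h7
  · exact ⟨⟨by simp only; omega, Or.inl rfl⟩, by simp only; omega⟩
  · exact ⟨⟨by simp only; omega, Or.inl rfl⟩, sz_lset _ _ _ (by simp)⟩
  · exact ⟨⟨by simp only; omega, Or.inl rfl⟩, sz_lset _ _ _ (by simp)⟩
  · exact ⟨⟨by simp only; omega, Or.inl rfl⟩, sz_lset _ _ _ (by rw [List.length_tail]; omega)⟩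
  · exact ⟨⟨by simp only; omega, Or.inr h2⟩, by simp only; omega⟩
  · exact ⟨⟨by simp only; omega, Or.inr h2⟩, by simp only; omega⟩
  · exact ⟨⟨by simp only; omega, Or.inr h2⟩, by simp only; omega⟩

theorem ustep_bd (C : List Ins) (s : ℕ × List (List Bool)) :
    sz (ustep C s) ≤ sz s + (2 * sz C + 4) := by
  obtain ⟨pc, S⟩ := s
  unfold ustep
  obtain ⟨⟨h1, h2⟩, h3⟩ := eff_bd (C.getD pc (0, 0, pc, 0, 0)) S
  have h4 : (eff (C.getD pc (0, 0, pc, 0, 0)) S).1 ≤ pc + sz C := by
    by_cases h : pc < C.length
    · have h5 : C.getD pc (0, 0, pc, 0, 0) ∈ C := by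
        rw [List.getD_eq_getElem _ _ h]
        exact List.getElem_mem h
      have h6 := sz_le_of_mem h5
      omega
    · have h5 : C.getD pc (0, 0, pc, 0, 0) = (0, 0, pc, 0, 0) := by
        rw [List.getD_eq_default _ _ (by omega)]
      rw [h5]
      simp [eff]
  have h5 : sz (eff (C.getD pc (0, 0, pc, 0, 0)) S)
      = 2 * (eff (C.getD pc (0, 0, pc, 0, 0)) S).1 + 1
        + sz (eff (C.getD pc (0, 0, pc, 0, 0)) S).2 := by
    have := sz_pair (eff (C.getD pc (0, 0, pc, 0, 0)) S).1 (eff (C.getD pc (0, 0, pc, 0, 0)) S).2
    rw [sz_nat] at this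
    exact this
  have h6 : sz ((pc, S) : ℕ × List (List Bool)) = 2 * pc + 1 + sz S := by
    rw [sz_pair, sz_nat]
  rw [h5, h6]
  omega

/-- the typed universal function: `(R, C)` is the program, `n` the fuel, `x` the input -/
def uf (a : (ℕ × List Ins) × ℕ × List Bool) : List Bool :=
  ((fun s => ustep a.1.2 s)^[a.2.1] (0, a.2.2 :: List.replicate a.1.1 [])).2.getD 1 []

theorem polyF_uf : PolyF uf := by
  have h := PolyF.iter_add (α := (ℕ × List Ins) × ℕ × List Bool) (σ := ℕ × List (List Bool))
    (n := fun a => a.2.1) (s := fun a => (0, a.2.2 :: List.replicate a.1.1 []))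
    (f := fun p => ustep p.1.1.2 p.2) PolyF.id.snd.fst
    ((PolyF.const 0).pair (PolyF.cons PolyF.id.snd.snd
      (PolyF.replicate PolyF.id.fst.fst (PolyF.const []))))
    (PolyF.comp polyF_ustep (PolyF.id.fst.fst.snd.pair PolyF.id.snd))
    (h := fun a => 2 * sz a.1.2 + 4)
    (((PolyBd.const 2).mul (PolyF.id.fst.snd.szBd)).add (PolyBd.const 4))
    (fun a x => ustep_bd _ _)
  exact PolyF.getD (PolyF.const 1) h.snd (PolyF.const [])

theorem uf_spec {f : List Bool → List Bool} (hf : PC f) :
    ∃ (c : ℕ × List Ins) (T : Polynomial ℕ), ∀ (x : List Bool) (n : ℕ), T.eval x.length ≤ n →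
      uf (c, n, x) = f x := by
  obtain ⟨P, T, hP⟩ := hf
  refine ⟨(max P.maxReg 1, flat P 0 P.size), T, fun x n hn => ?_⟩
  obtain ⟨t, ht, hrun⟩ := hP x
  have h1 := sim (R := max P.maxReg 1) hrun 0 P.size (flat P 0 P.size) [] []
    (Prog.regsLt_mono (by omega) (Prog.regsLt_maxReg P)) rfl (by simp)
  have h2 : stk (max P.maxReg 1) (Prog.inSt x) = x :: List.replicate (max P.maxReg 1) [] := by
    unfold stk Prog.inSt
    rw [List.range_succ_eq_map, List.map_cons, Function.update_self, List.map_map]
    congr 1
    refine List.ext_getElem (by simp) ?_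
    intro i h1 h2
    simp
  have h3 : ∀ k, (ustep (flat P 0 P.size))^[k]
      (P.size, stk (max P.maxReg 1) (Prog.outSt (f x)))
      = (P.size, stk (max P.maxReg 1) (Prog.outSt (f x))) := by
    intro k
    induction k with
    | zero => rfl
    | succ k ih =>
      rw [Function.iterate_succ_apply]
      have h4 : ustep (flat P 0 P.size) (P.size, stk (max P.maxReg 1) (Prog.outSt (f x)))
          = (P.size, stk (max P.maxReg 1) (Prog.outSt (f x))) := by
        unfold ustep
        rw [List.getD_eq_default _ _ (by rw [flat_length])]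
        rfl
      rw [h4, ih]
  show ((ustep (flat P 0 P.size))^[n] (0, x :: List.replicate (max P.maxReg 1) [])).2.getD 1 [] = f x
  obtain ⟨k, rfl⟩ : ∃ k, n = k + t := ⟨n - t, by omega⟩
  rw [Function.iterate_add_apply, ← h2, h1, h3]
  rw [stk_getD _ (by omega)]
  unfold Prog.outSt
  rw [Function.update_self]

/-- a universal polynomial-time function -/
theorem universal : ∃ U : List Bool × ℕ × List Bool → List Bool, PolyF U ∧
    ∀ f : List Bool → List Bool, PC f → ∃ (e : List Bool) (T : Polynomial ℕ),
      ∀ (x : List Bool) (n : ℕ), T.eval x.length ≤ n → U (e, n, x) = f x := by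
  obtain ⟨g, hg1, hg2⟩ := polyF_uf
  refine ⟨fun a => g (pairWord a.1 (enc (a.2.1, a.2.2))), ?_, fun f hf => ?_⟩
  · exact ⟨g, hg1, fun a => rfl⟩
  · obtain ⟨c, T, h⟩ := uf_spec hf
    refine ⟨enc c, T, fun x n hn => ?_⟩
    have h1 := hg2 (c, n, x)
    rw [h x n hn] at h1
    exact h1

end Pool.Agent.AuxPDA
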